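import Pool.Agent.V11328.Dep

/-! The block construction. -/

open MeasureTheory ProbabilityTheory Finset unitInterval

namespace Pool.Agent.V11328.B3

open Pool.Agent.V11328.Dep

variable {n h : ℕ}

/-- Block of a vertex. -/
def blk (h : ℕ) (u : Fin n) : Fin (2 * h + 1) := ⟨u.val % (2 * h + 1), Nat.mod_lt _ (by omega)⟩

/-- The regular tournament on the blocks: `j → i` when `i - j` is one of `1, ..., h` modulo
`2 h + 1`. -/
def arc (j i : Fin (2 * h + 1)) : Prop :=
  (j.val < i.val ∧ i.val - j.val ≤ h) ∨ (i.val < j.val ∧ i.val + (2 * h + 1) - j.val ≤ h)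

instance (j i : Fin (2 * h + 1)) : Decidable (arc j i) := by unfold arc; infer_instance

lemma arc_asymm {j i : Fin (2 * h + 1)} (h1 : arc j i) (h2 : arc i j) : False := by
  unfold arc at h1 h2
  omega

lemma arc_ne {j i : Fin (2 * h + 1)} (h1 : arc j i) : j ≠ i := by
  rintro rfl
  exact arc_asymm h1 h1

lemma arc_total {j i : Fin (2 * h + 1)} (hne : j ≠ i) : arc j i ∨ arc i j := by
  have : j.val ≠ i.val := fun h => hne (Fin.ext h)
  unfold arc
  have h1 := j.2
  have h2 := i.2
  omega

/-- Index set of the independent variables. -/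
abbrev Idx (n h : ℕ) := (Fin n × Fin (2 * h + 1)) ⊕ Prs n

open Classical in
/-- The variable attached to a pair: if its ends `w`, `u` lie in different blocks and the
tournament arc goes from the block of `w` to that of `u`, then it is the variable `(w, block of u)`;
pairs inside a block have a variable of their own. -/
noncomputable def var (h : ℕ) (e : Prs n) : Idx n h :=
  if H : ∃ q : Fin n × Fin n, e.1 = s(q.1, q.2) ∧ arc (blk h q.1) (blk h q.2) then
    Sum.inl ((Classical.choose H).1, blk h (Classical.choose H).2)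
  else Sum.inr e

lemma var_eq {e : Prs n} {w u : Fin n} (he : e.1 = s(w, u)) (ha : arc (blk h w) (blk h u)) :
    var h e = Sum.inl (w, blk h u) := by
  have H : ∃ q : Fin n × Fin n, e.1 = s(q.1, q.2) ∧ arc (blk h q.1) (blk h q.2) := ⟨(w, u), he, ha⟩
  have hs := Classical.choose_spec H
  rw [var, dif_pos H]
  have heq : s(w, u) = s((Classical.choose H).1, (Classical.choose H).2) := he.symm.trans hs.1
  rw [Sym2.eq_iff] at heq
  rcases heq with ⟨h1, h2⟩ | ⟨h1, h2⟩
  · rw [← h1, ← h2]
  · exfalso
    have h3 := hs.2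
    rw [← h1, ← h2] at h3
    exact arc_asymm ha h3

lemma var_inl {e : Prs n} {w : Fin n} {i : Fin (2 * h + 1)} (hv : var h e = Sum.inl (w, i)) :
    ∃ u, e.1 = s(w, u) ∧ blk h u = i := by
  rw [var] at hv
  split_ifs at hv with H
  have hs := Classical.choose_spec H
  simp only [Sum.inl.injEq, Prod.mk.injEq] at hv
  exact ⟨(Classical.choose H).2, hs.1.trans (by rw [hv.1]), hv.2⟩

lemma card_block (i : Fin (2 * h + 1)) :
    #(univ.filter (fun u : Fin n => blk h u = i)) ≤ n / (2 * h + 1) + 1 := by
  have : #(univ.filter (fun u : Fin n => blk h u = i)) ≤ #(range (n / (2 * h + 1) + 1)) := by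
    refine Finset.card_le_card_of_injOn (fun u => u.val / (2 * h + 1)) ?_ ?_
    · intro u _
      simp only [coe_range, Set.mem_Iio]
      exact Nat.lt_succ_of_le (Nat.div_le_div_right u.2.le)
    · intro u hu v hv huv
      simp only [coe_filter, mem_univ, true_and, Set.mem_ofPred_eq] at hu hv
      have h1 : u.val % (2 * h + 1) = v.val % (2 * h + 1) := by
        have := hu.trans hv.symm
        simpa [blk] using this
      have h2 : u.val / (2 * h + 1) = v.val / (2 * h + 1) := huv
      apply Fin.ext
      rw [← Nat.div_add_mod u.val (2 * h + 1), ← Nat.div_add_mod v.val (2 * h + 1), h1, h2]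
  simpa using this

lemma fiber (e : Prs n) : {f | f ≠ e ∧ var h f = var h e}.ncard ≤ n / (2 * h + 1) := by
  classical
  cases hv : var h e with
  | inr e' =>
    have : {f | f ≠ e ∧ var h f = Sum.inr e'} = ∅ := by
      rw [Set.eq_empty_iff_forall_notMem]
      rintro f ⟨hfe, hf⟩
      apply hfe
      rw [var] at hf hv
      split_ifs at hf hv
      rw [Sum.inr.injEq] at hf hv
      rw [hf, hv]
    rw [this]
    simp
  | inl wi =>
    obtain ⟨w, i⟩ := wi
    obtain ⟨u0, he, hu0⟩ := var_inl hv
    -- map f to the other end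
    have hsub : {f | f ≠ e ∧ var h f = Sum.inl (w, i)} ⊆
        (fun f : Prs n => f.1) ⁻¹' (((univ.filter (fun u : Fin n => blk h u = i)).erase u0).image
          (fun u => s(w, u)) : Finset (Sym2 (Fin n))) := by
      rintro f ⟨hfe, hf⟩
      obtain ⟨u, hu, hui⟩ := var_inl hf
      simp only [Set.mem_preimage, mem_coe, mem_image, mem_erase, mem_filter, mem_univ, true_and]
      refine ⟨u, ⟨?_, hui⟩, hu.symm⟩
      rintro rfl
      exact hfe (Subtype.ext (hu.trans he.symm))
    have h1 : {f | f ≠ e ∧ var h f = Sum.inl (w, i)}.ncard ≤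
        #(((univ.filter (fun u : Fin n => blk h u = i)).erase u0).image (fun u => s(w, u))) := by
      rw [← Set.ncard_coe_finset]
      refine Set.ncard_le_ncard_of_injOn (fun f : Prs n => f.1) (fun f hf => hsub hf) ?_
        (Finset.finite_toSet _)
      intro f _ g _ hfg
      exact Subtype.ext hfg
    refine h1.trans (card_image_le.trans ?_)
    rw [card_erase_of_mem (by simp [hu0])]
    exact Nat.sub_le_iff_le_add.2 (card_block (n := n) i)

/-- Some block is active towards another one. -/
def act (ω : Idx n h → Bool) (j i : Fin (2 * h + 1)) : Prop :=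
  arc j i ∧ ∃ w : Fin n, blk h w = j ∧ ω (Sum.inl (w, i)) = true

/-- Deterministic connectivity criterion. -/
theorem connected_of (hn : 2 * h + 1 ≤ n) (ω : Idx n h → Bool)
    (ha : ∀ i, ∃ j, act ω j i)
    (hb : ∀ A : Finset (Fin (2 * h + 1)), A.Nonempty → A ≠ univ →
      ∃ i ∈ A, ∃ j, j ∉ A ∧ (act ω i j ∨ act ω j i)) :
    (gph (var h) ω).Connected := by
  classical
  -- active centres are adjacent to whole blocks
  have hadj : ∀ w u : Fin n, arc (blk h w) (blk h u) → ω (Sum.inl (w, blk h u)) = true →
      (gph (var h) ω).Adj w u := by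
    intro w u h1 h2
    have hne : w ≠ u := fun h => arc_ne h1 (by rw [h])
    have hd : ¬ (s(w, u)).IsDiag := by rwa [Sym2.mk_isDiag_iff]
    have := mem_gph (var h) ω ⟨s(w, u), hd⟩
    rw [← SimpleGraph.mem_edgeSet]
    exact this.2 (by rw [var_eq rfl h1]; exact h2)
  have hblock : ∀ u v : Fin n, blk h u = blk h v → (gph (var h) ω).Reachable u v := by
    intro u v huv
    obtain ⟨j, hj, w, hw, hwi⟩ := ha (blk h u)
    have h1 := hadj w u (by rw [hw]; exact hj) hwi
    have h2 := hadj w v (by rw [hw, ← huv]; exact hj) (by rw [← huv]; exact hwi)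
    exact h1.symm.reachable.trans h2.reachable
  set v0 : Fin n := ⟨0, by omega⟩ with hv0
  set A : Finset (Fin (2 * h + 1)) := univ.filter
    (fun i => ∀ u : Fin n, blk h u = i → (gph (var h) ω).Reachable v0 u) with hA
  have hA0 : A.Nonempty := by
    refine ⟨blk h v0, ?_⟩
    simp only [hA, mem_filter, mem_univ, true_and]
    intro u hu
    exact hblock v0 u hu.symm
  have hAuniv : A = univ := by
    by_contra hne
    obtain ⟨i, hi, j, hj, hact⟩ := hb A hA0 hne
    apply hj
    simp only [hA, mem_filter, mem_univ, true_and] at hi ⊢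
    intro u hu
    rcases hact with ⟨harc, w, hw, hwi⟩ | ⟨harc, w, hw, hwi⟩
    · have h1 := hi w hw
      have h2 := hadj w u (by rw [hw, hu]; exact harc) (by rw [hu]; exact hwi)
      exact h1.trans h2.reachable
    · -- a vertex of block `i`
      have hib : blk h (⟨i.val, by omega⟩ : Fin n) = i := by
        apply Fin.ext
        simp [blk, Nat.mod_eq_of_lt i.2]
      have h1 := hi _ hib
      have h2 := hadj w ⟨i.val, by omega⟩ (by rw [hw, hib]; exact harc) (by rw [hib]; exact hwi)
      exact (h1.trans h2.symm.reachable).trans (hblock w u (hw.trans hu.symm))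
  have hall : ∀ u, (gph (var h) ω).Reachable v0 u := by
    intro u
    have : blk h u ∈ A := by rw [hAuniv]; exact mem_univ _
    simp only [hA, mem_filter, mem_univ, true_and] at this
    exact this u rfl
  exact { preconnected := fun u v => (hall u).symm.trans (hall v), nonempty := ⟨v0⟩ }

/-- The `t`-th vertex of block `i`. -/
def vtx (n : ℕ) (i : Fin (2 * h + 1)) (t : Fin (n / (2 * h + 1))) : Fin n :=
  ⟨i.val + (2 * h + 1) * t.val, by
    have h1 := i.2
    have h2 := t.2
    have h3 : (2 * h + 1) * (n / (2 * h + 1)) ≤ n := Nat.mul_div_le _ _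
    have h4 : (2 * h + 1) * (t.val + 1) ≤ (2 * h + 1) * (n / (2 * h + 1)) :=
      Nat.mul_le_mul_left _ h2
    rw [Nat.mul_add, Nat.mul_one] at h4
    omega⟩

lemma blk_vtx (i : Fin (2 * h + 1)) (t : Fin (n / (2 * h + 1))) : blk h (vtx n i t) = i := by
  apply Fin.ext
  simp only [blk, vtx, Nat.add_mul_mod_self_left]
  exact Nat.mod_eq_of_lt i.2

lemma vtx_inj {i j : Fin (2 * h + 1)} {t t' : Fin (n / (2 * h + 1))}
    (hh : vtx n i t = vtx n j t') : i = j ∧ t = t' := by
  have h1 : i = j := by rw [← blk_vtx (n := n) i t, hh, blk_vtx]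
  refine ⟨h1, ?_⟩
  subst h1
  have h2 := congrArg Fin.val hh
  simp only [vtx] at h2
  have h3 : (2 * h + 1) * t.val = (2 * h + 1) * t'.val := by omega
  exact Fin.ext (Nat.eq_of_mul_eq_mul_left (by omega) h3)

/-- Variables that must vanish when no block is active towards `i`. -/
def TA (n : ℕ) (i : Fin (2 * h + 1)) : Finset (Idx n h) :=
  univ.filter (fun x => ∃ w : Fin n, x = Sum.inl (w, i) ∧ arc (blk h w) i)

lemma card_TA (i : Fin (2 * h + 1)) : h * (n / (2 * h + 1)) ≤ #(TA n i) := by
  classical
  have : #((univ : Finset (Fin h)) ×ˢ (univ : Finset (Fin (n / (2 * h + 1))))) ≤ #(TA n i) := by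
    refine Finset.card_le_card_of_injOn (fun q => Sum.inl (vtx n (⟨if q.1.val + 1 ≤ i.val then
      i.val - (q.1.val + 1) else i.val + (2 * h + 1) - (q.1.val + 1), by
        have := q.1.2; have := i.2; split_ifs <;> omega⟩ : Fin (2 * h + 1)) q.2, i)) ?_ ?_
    · intro q _
      simp only [TA, coe_filter, mem_univ, true_and, Set.mem_ofPred_eq]
      refine ⟨_, rfl, ?_⟩
      rw [blk_vtx]
      have h1 := q.1.2
      have h2 := i.2
      unfold arc
      simp only
      split_ifs <;> omega
    · intro q _ q' _ hq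
      simp only [Sum.inl.injEq, Prod.mk.injEq, and_true] at hq
      obtain ⟨h1, h2⟩ := vtx_inj hq
      simp only [Fin.mk.injEq] at h1
      have h3 := q.1.2
      have h4 := q'.1.2
      have h5 := i.2
      refine Prod.ext (Fin.ext ?_) h2
      split_ifs at h1 <;> omega
  rw [card_product, card_univ, card_univ, Fintype.card_fin, Fintype.card_fin] at this
  exact this

/-- Variables that must vanish when no block of `A` is active from or towards the complement. -/
def TB (n : ℕ) (A : Finset (Fin (2 * h + 1))) : Finset (Idx n h) :=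
  univ.filter (fun x => ∃ (w : Fin n) (i : Fin (2 * h + 1)), x = Sum.inl (w, i) ∧
    arc (blk h w) i ∧ (blk h w ∈ A ↔ i ∉ A))

lemma card_TB (A : Finset (Fin (2 * h + 1))) :
    #A * #(univ \ A) * (n / (2 * h + 1)) ≤ #(TB n A) := by
  classical
  have : #((A ×ˢ (univ \ A)) ×ˢ (univ : Finset (Fin (n / (2 * h + 1))))) ≤ #(TB n A) := by
    refine Finset.card_le_card_of_injOn (fun q => if arc q.1.1 q.1.2 then
      Sum.inl (vtx n q.1.1 q.2, q.1.2) else Sum.inl (vtx n q.1.2 q.2, q.1.1)) ?_ ?_
    · intro q hq
      simp only [coe_product, Set.mem_prod, mem_coe, mem_sdiff, mem_univ, true_and] at hq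
      have hne : q.1.1 ≠ q.1.2 := fun h => hq.1.2 (h ▸ hq.1.1)
      simp only [TB, coe_filter, mem_univ, true_and, Set.mem_ofPred_eq]
      split_ifs with harc
      · refine ⟨_, _, rfl, ?_, ?_⟩
        · rw [blk_vtx]; exact harc
        · rw [blk_vtx]
          exact ⟨fun _ => hq.1.2, fun _ => hq.1.1⟩
      · refine ⟨_, _, rfl, ?_, ?_⟩
        · rw [blk_vtx]; exact (arc_total hne).resolve_left harc
        · rw [blk_vtx]
          exact ⟨fun h => absurd h hq.1.2, fun h => absurd hq.1.1 h⟩
    · intro q hq q' hq' hqq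
      simp only [coe_product, Set.mem_prod, mem_coe, mem_sdiff, mem_univ, true_and] at hq hq'
      dsimp only at hqq
      split_ifs at hqq with h1 h2 h2
      · simp only [Sum.inl.injEq, Prod.mk.injEq] at hqq
        obtain ⟨h3, h4⟩ := vtx_inj hqq.1
        exact Prod.ext (Prod.ext h3 hqq.2) h4
      · simp only [Sum.inl.injEq, Prod.mk.injEq] at hqq
        obtain ⟨h3, h4⟩ := vtx_inj hqq.1
        exfalso
        exact hq'.1.2 (h3 ▸ hq.1.1)
      · simp only [Sum.inl.injEq, Prod.mk.injEq] at hqq
        obtain ⟨h3, h4⟩ := vtx_inj hqq.1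
        exfalso
        exact hq.1.2 (h3 ▸ hq'.1.1)
      · simp only [Sum.inl.injEq, Prod.mk.injEq] at hqq
        obtain ⟨h3, h4⟩ := vtx_inj hqq.1
        exact Prod.ext (Prod.ext hqq.2 h3) h4
  rw [card_product, card_product, card_univ, Fintype.card_fin] at this
  exact this

end Pool.Agent.V11328.B3
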